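import Mathlib
import Pool.Agent.TH278.DX.Defs3
import Pool.Agent.TH278.DX.Final
import Pool.Agent.TH889.J5187
set_option autoImplicit false

/-!
# Extensions by amenable groups preserve unitarisability

Let `φ : G → Q` be surjective, `Q` amenable. If the restriction of a uniformly bounded
representation `π` of `G` to the kernel of `φ` is unitarisable, then `π` is unitarisable: the
operators `π(g⁻¹)^* A π(g⁻¹)` (`A` an invariant operator for the kernel) depend on `φ(g)` only, and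
they are averaged over `Q`.
-/

namespace Pool.Agent.Y869.UP

open Pool.Agent.TH278.DX
open Pool.Agent.TH889.J5187 (mean_re)
open scoped ComplexConjugate

theorem inv_of_kernel {G Q H : Type} [Group G] [Group Q] [NormedAddCommGroup H]
    [InnerProductSpace ℂ H] [CompleteSpace H] (hQ : Amenable Q) (φ : G →* Q)
    (hφ : Function.Surjective φ) (π : G →* (H →L[ℂ] H)ˣ) (c : ℝ) (hπ : Bdd π c) (m M₀ : ℝ)
    (hm : 0 < m) (h0 : Inv (π.comp φ.ker.subtype) m M₀) : ∃ M₁ : ℝ, Inv π 1 M₁ := by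
  obtain ⟨M, hadd, hsmul, hconst, hnorm, hinv⟩ := j4953_exists hQ
  obtain ⟨A₀, hsym, hlow, hup, hker⟩ := h0
  obtain ⟨k, hk1, hk⟩ : ∃ k : ℝ, 1 ≤ k ∧ Bdd π k :=
    ⟨max c 1, le_max_right _ _, fun g => (hπ g).trans (le_max_left _ _)⟩
  have hk0 : 0 < k := by linarith
  set U : G → (H →L[ℂ] H) := fun g => ((π g : (H →L[ℂ] H)ˣ) : H →L[ℂ] H) with hU
  have hUmul : ∀ g h (x : H), U (g * h) x = U g (U h x) := fun g h x => by simp [hU]
  have hUU' : ∀ g (x : H), U g⁻¹ (U g x) = x := fun g x => by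
    have : U g⁻¹ * U g = 1 := by simp [hU]
    calc U g⁻¹ (U g x) = (U g⁻¹ * U g) x := rfl
      _ = x := by rw [this]; rfl
  have hUn : ∀ g (x : H), ‖U g x‖ ≤ k * ‖x‖ := fun g x =>
    ((U g).le_opNorm x).trans (mul_le_mul_of_nonneg_right (hk g) (norm_nonneg _))
  have hUl : ∀ g (x : H), ‖x‖ ≤ k * ‖U g x‖ := by
    intro g x
    calc ‖x‖ = ‖U g⁻¹ (U g x)‖ := by rw [hUU']
      _ ≤ k * ‖U g x‖ := hUn _ _
  -- invariance of `A₀` under the kernel
  have hker' : ∀ n : G, φ n = 1 → ∀ x y : H, (inner ℂ (A₀ (U n x)) (U n y) : ℂ) = inner ℂ (A₀ x) y :=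
    fun n hn x y => hker ⟨n, hn⟩ x y
  -- a section
  obtain ⟨s, hs⟩ := hφ.hasRightInverse
  -- the form attached to `g` depends on `φ g` only
  have hF : ∀ g g' : G, φ g = φ g' → ∀ x y : H,
      (inner ℂ (A₀ (U g⁻¹ x)) (U g⁻¹ y) : ℂ) = inner ℂ (A₀ (U g'⁻¹ x)) (U g'⁻¹ y) := by
    intro g g' hg x y
    have e : ∀ z : H, U g⁻¹ z = U (g⁻¹ * g') (U g'⁻¹ z) := fun z => by
      rw [← hUmul, mul_assoc, mul_inv_cancel, mul_one]
    rw [e x, e y]
    refine hker' (g⁻¹ * g') ?_ _ _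
    rw [map_mul, map_inv, hg, inv_mul_cancel]
  set F : H → H → Q → ℂ := fun v w q => inner ℂ (A₀ (U (s q)⁻¹ v)) (U (s q)⁻¹ w) with hFdef
  -- transformation rule
  have hFtr : ∀ (h : G) (v w : H) (q : Q), F (U h v) (U h w) q = F v w ((φ h)⁻¹ * q) := by
    intro h v w q
    simp only [hFdef]
    rw [← hUmul, ← hUmul]
    have e : (s q)⁻¹ * h = (h⁻¹ * s q)⁻¹ := by group
    rw [e]
    refine hF _ _ ?_ _ _
    rw [map_mul, map_inv, hs, hs]
  have hbd : ∀ v w : H, ∀ q : Q, ‖F v w q‖ ≤ (‖A₀‖ * k ^ 2) * ‖v‖ * ‖w‖ := by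
    intro v w q
    refine (norm_inner_le_norm _ _).trans ?_
    calc ‖A₀ (U (s q)⁻¹ v)‖ * ‖U (s q)⁻¹ w‖ ≤ (‖A₀‖ * (k * ‖v‖)) * (k * ‖w‖) := by
          refine mul_le_mul ?_ (hUn _ _) (norm_nonneg _) (by positivity)
          exact (A₀.le_opNorm _).trans (mul_le_mul_of_nonneg_left (hUn _ _) (norm_nonneg _))
      _ = _ := by ring
  have hbd' : ∀ v w : H, ∃ C, ∀ q : Q, ‖F v w q‖ ≤ C := fun v w => ⟨_, hbd v w⟩
  let B0 : H →ₗ⋆[ℂ] H →ₗ[ℂ] ℂ := LinearMap.mk₂'ₛₗ (starRingEnd ℂ) (RingHom.id ℂ)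
    (fun v w => M (F v w))
    (by
      intro v v' w
      have : F (v + v') w = fun q => F v w q + F v' w q := by
        funext q
        simp only [hFdef, map_add, inner_add_left]
      rw [this]
      exact hadd _ _ (hbd' v w) (hbd' v' w))
    (by
      intro r v w
      have : F (r • v) w = fun q => conj r * F v w q := by
        funext q
        simp only [hFdef, map_smul, inner_smul_left]
      rw [this]
      exact hsmul _ _ (hbd' v w))
    (by
      intro v w w'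
      have : F v (w + w') = fun q => F v w q + F v w' q := by
        funext q
        simp only [hFdef, map_add, inner_add_right]
      rw [this]
      exact hadd _ _ (hbd' v w) (hbd' v w'))
    (by
      intro r v w
      have : F v (r • w) = fun q => r * F v w q := by
        funext q
        simp only [hFdef, map_smul, inner_smul_right]
      rw [this]
      exact hsmul _ _ (hbd' v w))
  have hB0 : ∀ v w, B0 v w = M (F v w) := fun v w => rfl
  let B : H →L⋆[ℂ] H →L[ℂ] ℂ := LinearMap.mkContinuous₂ B0 (‖A₀‖ * k ^ 2) (by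
    intro v w
    rw [hB0]
    exact hnorm _ _ (hbd v w))
  have hB : ∀ v w, B v w = M (F v w) := fun v w => rfl
  let A : H →L[ℂ] H := InnerProductSpace.continuousLinearMapOfBilin B
  have hA : ∀ v w, inner ℂ (A v) w = M (F v w) := by
    intro v w
    rw [← hB]
    exact InnerProductSpace.continuousLinearMapOfBilin_apply B v w
  have hAinv : ∀ h v w, (inner ℂ (A (U h v)) (U h w) : ℂ) = inner ℂ (A v) w := by
    intro h v w
    rw [hA, hA, ← hinv (φ h)⁻¹ (F v w) (hbd' _ _)]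
    congr 1
    funext q
    exact hFtr h v w q
  set b : ℝ := |M₀| with hb
  have hArange : ∀ v, m * ‖v‖ ^ 2 / k ^ 2 ≤ (inner ℂ (A v) v : ℂ).re ∧
      (inner ℂ (A v) v : ℂ).re ≤ b * k ^ 2 * ‖v‖ ^ 2 := by
    intro v
    have e : F v v = fun q => (((inner ℂ (A₀ (U (s q)⁻¹ v)) (U (s q)⁻¹ v) : ℂ).re : ℝ) : ℂ) := by
      funext q
      simp only [hFdef]
      refine ((Complex.conj_eq_iff_re).1 ?_).symm
      rw [inner_conj_symm, ← hsym]
    rw [hA, e]
    refine mean_re hadd hconst hnorm _ _ _ (fun q => ?_) (fun q => ?_)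
    · refine le_trans ?_ (hlow _)
      rw [div_le_iff₀ (by positivity)]
      have h1 := hUl (s q)⁻¹ v
      calc m * ‖v‖ ^ 2 ≤ m * (k * ‖U (s q)⁻¹ v‖) ^ 2 :=
            mul_le_mul_of_nonneg_left (pow_le_pow_left₀ (norm_nonneg _) h1 2) hm.le
        _ = _ := by ring
    · refine (hup _).trans ?_
      calc M₀ * ‖U (s q)⁻¹ v‖ ^ 2 ≤ b * ‖U (s q)⁻¹ v‖ ^ 2 :=
            mul_le_mul_of_nonneg_right (le_abs_self _) (by positivity)
        _ ≤ b * (k * ‖v‖) ^ 2 :=
            mul_le_mul_of_nonneg_left (pow_le_pow_left₀ (norm_nonneg _) (hUn _ _) 2) (abs_nonneg _)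
        _ = _ := by ring
  set t : ℝ := k ^ 2 / m with ht
  have ht0 : 0 < t := by positivity
  set D : H →L[ℂ] H := ((t / 2 : ℝ) : ℂ) • (A + ContinuousLinearMap.adjoint A) with hDdef
  have hD : ∀ v w, (inner ℂ (D v) w : ℂ) =
      ((t / 2 : ℝ) : ℂ) * (inner ℂ (A v) w + inner ℂ v (A w)) := by
    intro v w
    rw [hDdef, smul_apply, inner_smul_left, Complex.conj_ofReal, add_apply,
      inner_add_left, ContinuousLinearMap.adjoint_inner_left]
  have hDre : ∀ v, (inner ℂ (D v) v : ℂ).re = t * (inner ℂ (A v) v : ℂ).re := by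
    intro v
    rw [hD, Complex.re_ofReal_mul, Complex.add_re]
    have h1 : (inner ℂ v (A v) : ℂ).re = (inner ℂ (A v) v : ℂ).re := by
      rw [← inner_conj_symm, Complex.conj_re]
    rw [h1]
    ring
  refine ⟨t * (b * k ^ 2), D, ?_, ?_, ?_, ?_⟩
  · intro x y
    rw [← inner_conj_symm x (D y), hD, hD, map_mul, Complex.conj_ofReal, map_add,
      inner_conj_symm, inner_conj_symm]
    ring
  · intro x
    rw [hDre, one_mul]
    have h1 := mul_le_mul_of_nonneg_left (hArange x).1 ht0.le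
    have h2 : t * (m * ‖x‖ ^ 2 / k ^ 2) = ‖x‖ ^ 2 := by
      rw [ht]
      field_simp
    linarith
  · intro x
    rw [hDre]
    have h1 := mul_le_mul_of_nonneg_left (hArange x).2 ht0.le
    linarith
  · intro g x y
    show (inner ℂ (D (U g x)) (U g y) : ℂ) = inner ℂ (D x) y
    rw [hD, hD, hAinv]
    congr 2
    rw [← inner_conj_symm (U g x), hAinv, inner_conj_symm]

/-- Extensions by amenable groups. -/
theorem sim_of_kernel {G Q H : Type} [Group G] [Group Q] [NormedAddCommGroup H]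
    [InnerProductSpace ℂ H] [CompleteSpace H] (hQ : Amenable Q) (φ : G →* Q)
    (hφ : Function.Surjective φ) (π : G →* (H →L[ℂ] H)ˣ) (c : ℝ) (hπ : Bdd π c)
    (h0 : ∃ κ : ℝ, Sim (π.comp φ.ker.subtype) κ) : ∃ κ : ℝ, Sim π κ := by
  obtain ⟨M₀, h1⟩ := (inv_iff_sim (π.comp φ.ker.subtype)).2 h0
  exact (inv_iff_sim π).1 (inv_of_kernel hQ φ hφ π c hπ 1 M₀ one_pos h1)

end Pool.Agent.Y869.UP
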