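import Mathlib
import Pool.Agent.Y324.DX.Deriv
import Pool.Agent.Y869.UP.Ext
set_option autoImplicit false

/-!
# Groups with property A all of whose representations bounded by some `c > 1` are unitarisable

They are amenable (helper278, helper324); here from the library of helper324.
-/

noncomputable section

namespace Pool.Agent.Y869.UP

open Pool.Agent.TH278.DX
open Pool.Agent

theorem amenable_of_upTo {G : Type} [Group G] (hA : PropertyA G) (c : ℝ) (hc : 1 < c)
    (hU : ∀ (H : Type) [NormedAddCommGroup H] [InnerProductSpace ℂ H] [CompleteSpace H]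
        (π : G →* (H →L[ℂ] H)ˣ), Bdd π c → ∃ κ : ℝ, Sim π κ) : Amenable G := by
  obtain ⟨σ, hσu, hσ⟩ := Y324.DX.exists_regN G
  have h7 : ∀ D : G → _, (∀ g k, D (g * k) = Y324.DX.op (σ g) * D k + D g * Y324.DX.op (σ k)) →
      (∃ C : ℝ, ∀ g, ‖D g‖ ≤ C) → ∃ T, ∀ g, D g = Y324.DX.op (σ g) * T - T * Y324.DX.op (σ g) :=
    fun D hD hb => Y324.DX.inner_of_ext σ hσu c hc
      (fun ρ hρ _ => (inv_iff_sim ρ).2 (hU _ ρ hρ)) D hD hb
  have hn : ∀ g, ‖Y324.DX.op (σ g)‖ ≤ 1 := fun g => by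
    refine ContinuousLinearMap.opNorm_le_bound _ zero_le_one fun x => ?_
    rw [one_mul]
    exact (TH993.DX.norm_unitary (hσu g) x).le
  obtain ⟨K, hK⟩ := Y324.DX.dist_of_inner σ 1 hn h7
  by_contra hG
  obtain ⟨T, hT, hfar⟩ := Y324.DX.exists_almostN hA hG σ hσ (1 / (8 * (|K| + 1))) (by positivity)
  obtain ⟨B, hB, hTB⟩ := hK T _ hT
  have h1 := hfar B hB
  have h2 : K * (1 / (8 * (|K| + 1))) ≤ 1 / 8 := by
    rw [mul_one_div, div_le_div_iff₀ (by positivity) (by norm_num)]
    have := le_abs_self K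
    linarith
  linarith

end Pool.Agent.Y869.UP
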