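import Mathlib
import Pool.Agent.TH862.Mean
set_option autoImplicit false

/-!
# Property (T): transitive sets with an invariant mean are finite
-/

noncomputable section

namespace Pool.Agent.Y869.UP

open scoped InnerProductSpace

/-- Kazhdan's property (T) of a discrete group: a Kazhdan pair exists. -/
def PropT (G : Type) [Group G] : Prop :=
  ∃ (S : Finset G) (ε : ℝ), 0 < ε ∧
    ∀ (H : Type) [NormedAddCommGroup H] [InnerProductSpace ℂ H] [CompleteSpace H]
      (ρ : G →* (H ≃ₗᵢ[ℂ] H)), (∃ x : H, ‖x‖ = 1 ∧ ∀ s ∈ S, ‖ρ s x - x‖ < ε) →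
      ∃ x : H, x ≠ 0 ∧ ∀ g : G, ρ g x = x

/-- `ℓ²(D)` -/
abbrev L2 (D : Type) : Type := lp (fun _ : D => ℂ) 2

variable {D : Type}

theorem mem_per (σ : Equiv.Perm D) (f : L2 D) :
    Memℓp (fun x => (f : D → ℂ) (σ.symm x)) 2 := by
  have h := lp.memℓp f
  rw [memℓp_gen_iff (by norm_num)] at h ⊢
  exact (σ.symm.summable_iff (f := fun x => ‖(f : D → ℂ) x‖ ^ (2 : ENNReal).toReal)).2 h

/-- the isometry of `ℓ²(D)` given by a permutation -/
def perL (σ : Equiv.Perm D) : L2 D →ₗᵢ[ℂ] L2 D where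
  toFun f := ⟨fun x => (f : D → ℂ) (σ.symm x), mem_per σ f⟩
  map_add' f g := by ext x; rfl
  map_smul' c f := by ext x; rfl
  norm_map' f := by
    show ‖(⟨fun x => (f : D → ℂ) (σ.symm x), mem_per σ f⟩ : L2 D)‖ = ‖f‖
    rw [lp.norm_eq_tsum_rpow (by norm_num), lp.norm_eq_tsum_rpow (by norm_num)]
    congr 1
    exact σ.symm.tsum_eq (fun x => ‖(f : D → ℂ) x‖ ^ (2 : ENNReal).toReal)

theorem perL_apply (σ : Equiv.Perm D) (f : L2 D) (x : D) :
    (perL σ f : D → ℂ) x = (f : D → ℂ) (σ.symm x) := rfl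

/-- the unitary operator of `ℓ²(D)` given by a permutation -/
def per (σ : Equiv.Perm D) : L2 D ≃ₗᵢ[ℂ] L2 D where
  toFun := perL σ
  invFun := perL σ.symm
  map_add' := (perL σ).map_add
  map_smul' := (perL σ).map_smul
  left_inv f := by
    ext x
    rw [perL_apply, perL_apply, Equiv.symm_symm, Equiv.symm_apply_apply]
  right_inv f := by
    ext x
    rw [perL_apply, perL_apply, Equiv.symm_symm, Equiv.apply_symm_apply]
  norm_map' := (perL σ).norm_map

theorem per_apply (σ : Equiv.Perm D) (f : L2 D) (x : D) :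
    (per σ f : D → ℂ) x = (f : D → ℂ) (σ.symm x) := rfl

variable {G : Type} [Group G] [MulAction G D]

/-- the permutation representation on `ℓ²(D)` -/
def prep (G D : Type) [Group G] [MulAction G D] : G →* (L2 D ≃ₗᵢ[ℂ] L2 D) where
  toFun g := per (MulAction.toPerm g)
  map_one' := by
    ext f x
    rw [per_apply]
    show (f : D → ℂ) ((1 : G)⁻¹ • x) = (f : D → ℂ) x
    rw [inv_one, one_smul]
  map_mul' g k := by
    ext f x
    show (f : D → ℂ) ((g * k)⁻¹ • x) = (f : D → ℂ) (k⁻¹ • g⁻¹ • x)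
    rw [mul_inv_rev, mul_smul]

theorem prep_apply (g : G) (f : L2 D) (x : D) :
    (prep G D g f : D → ℂ) x = (f : D → ℂ) (g⁻¹ • x) := rfl

theorem finite_of_propT [MulAction.IsPretransitive G D] (hT : PropT G) (m : Set D → ℝ)
    (h0 : ∀ A, 0 ≤ m A) (h1 : m Set.univ = 1)
    (hadd : ∀ A B, Disjoint A B → m (A ∪ B) = m A + m B)
    (hinv : ∀ (g : G) A, m ((fun x => g • x) ⁻¹' A) = m A) : Finite D := by
  obtain ⟨S, ε, hε, hS⟩ := hT
  obtain ⟨f, s, hf0, hf1, hf⟩ := TH862.EA.exists_almost_inv_l2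
    (fun i : S => MulAction.toPerm ((i : G)⁻¹)) m h0 h1 hadd
    (fun i A => hinv ((i : G)⁻¹) A) (ε / 2) (by positivity)
  have h2 : (0 : ℝ) < (2 : ENNReal).toReal := by norm_num
  have hmem : Memℓp (fun x => ((f x : ℝ) : ℂ)) 2 := by
    rw [memℓp_gen_iff h2]
    refine summable_of_ne_finset_zero (s := s) fun x hx => ?_
    rw [hf0 x hx]
    simp
  set v : L2 D := ⟨fun x => ((f x : ℝ) : ℂ), hmem⟩ with hv
  have hv1 : ‖v‖ = 1 := by
    rw [lp.norm_eq_tsum_rpow h2]
    have : ∑' x, ‖(v : D → ℂ) x‖ ^ (2 : ENNReal).toReal = 1 := by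
      rw [← hf1, tsum_eq_sum (s := s)]
      · refine Finset.sum_congr rfl fun x _ => ?_
        show ‖((f x : ℝ) : ℂ)‖ ^ (2 : ENNReal).toReal = f x ^ 2
        rw [Complex.norm_real, ENNReal.toReal_ofNat, Real.rpow_ofNat, Real.norm_eq_abs, sq_abs]
      · intro x hx
        show ‖((f x : ℝ) : ℂ)‖ ^ (2 : ENNReal).toReal = 0
        rw [hf0 x hx]
        simp
    rw [this, Real.one_rpow]
  obtain ⟨w, hw0, hw⟩ := hS (L2 D) (prep G D) ⟨v, hv1, fun g hg => by
    refine lt_of_le_of_lt (lp.norm_le_of_forall_sum_le h2 (by positivity : 0 ≤ ε / 2)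
      fun Λ => ?_) (by linarith)
    refine le_trans (le_of_eq ?_) (le_trans (hf ⟨g, hg⟩ Λ) (le_of_eq ?_))
    · refine Finset.sum_congr rfl fun x _ => ?_
      show ‖((f (g⁻¹ • x) : ℝ) : ℂ) - ((f x : ℝ) : ℂ)‖ ^ (2 : ENNReal).toReal = _
      rw [← Complex.ofReal_sub, Complex.norm_real, ENNReal.toReal_ofNat, Real.rpow_ofNat,
        Real.norm_eq_abs, sq_abs]
      rfl
    · rw [ENNReal.toReal_ofNat, Real.rpow_ofNat]⟩
  by_contra hD
  have hD' : Infinite D := not_finite_iff_infinite.1 hD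
  have hsum := lp.memℓp w
  rw [memℓp_gen_iff h2] at hsum
  have hne : ∃ y, (w : D → ℂ) y ≠ 0 := by
    by_contra hcon
    push Not at hcon
    exact hw0 (by ext x; exact hcon x)
  obtain ⟨y, hy⟩ := hne
  have hconst : ∀ x, (w : D → ℂ) x = (w : D → ℂ) y := by
    intro x
    obtain ⟨g, rfl⟩ := MulAction.exists_smul_eq G y x
    have h3 := congrArg (fun u : L2 D => (u : D → ℂ) (g • y)) (hw g)
    simp only [prep_apply, inv_smul_smul] at h3
    exact h3.symm
  simp only [hconst] at hsum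
  rw [summable_const_iff] at hsum
  have h4 : (0 : ℝ) < ‖(w : D → ℂ) y‖ ^ (2 : ENNReal).toReal :=
    Real.rpow_pos_of_pos (norm_pos_iff.2 hy) _
  exact h4.ne' hsum

end Pool.Agent.Y869.UP
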