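import Mathlib
import Pool.Agent.Y869.UP.PT
import Pool.Agent.TH278.DX.Defs2
set_option autoImplicit false

/-!
# Amenable quotients of subgroups of finite index of a group with property (T) are finite
-/

noncomputable section

namespace Pool.Agent.Y869.UP

open Pool.Agent

variable {G Q : Type} [Group G] [Group Q]

/-- the kernel as a subgroup of `G` -/
def kerG (Λ : Subgroup G) (φ : Λ →* Q) : Subgroup G := φ.ker.map Λ.subtype

/-- `Q → G/N` -/
def jj (Λ : Subgroup G) (φ : Λ →* Q) (hφ : Function.Surjective φ) (q : Q) : G ⧸ kerG Λ φ :=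
  QuotientGroup.mk ((hφ q).choose : G)

theorem jj_map (Λ : Subgroup G) (φ : Λ →* Q) (hφ : Function.Surjective φ) (l : Λ) :
    jj Λ φ hφ (φ l) = QuotientGroup.mk (l : G) := by
  unfold jj
  rw [QuotientGroup.eq]
  refine ⟨((hφ (φ l)).choose)⁻¹ * l, ?_, rfl⟩
  show φ (((hφ (φ l)).choose)⁻¹ * l) = 1
  rw [map_mul, map_inv, (hφ (φ l)).choose_spec, inv_mul_cancel]

theorem jj_injective (Λ : Subgroup G) (φ : Λ →* Q) (hφ : Function.Surjective φ) :
    Function.Injective (jj Λ φ hφ) := by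
  intro q q' h
  obtain ⟨l, rfl⟩ := hφ q
  obtain ⟨l', rfl⟩ := hφ q'
  rw [jj_map, jj_map, QuotientGroup.eq] at h
  obtain ⟨k, hk, hk'⟩ := h
  have h1 : k = l⁻¹ * l' := Subtype.ext hk'
  have h2 : φ k = 1 := hk
  rw [h1, map_mul, map_inv, inv_mul_eq_one] at h2
  exact h2

theorem smul_jj (Λ : Subgroup G) (φ : Λ →* Q) (hφ : Function.Surjective φ) (l : Λ) (q : Q) :
    (l : G) • jj Λ φ hφ q = jj Λ φ hφ (φ l * q) := by
  obtain ⟨k, rfl⟩ := hφ q
  rw [jj_map, ← map_mul, jj_map]
  rfl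

open Classical in
/-- indicator function -/
def chi {D : Type} (A : Set D) (x : D) : ℝ := if x ∈ A then 1 else 0

theorem chi_bdd {D : Type} (A : Set D) : ∀ x, |chi A x| ≤ 1 := by
  intro x
  unfold chi
  split_ifs <;> simp

theorem chi_nonneg {D : Type} (A : Set D) : ∀ x, 0 ≤ chi A x := by
  intro x
  unfold chi
  split_ifs <;> simp

theorem chi_union {D : Type} {A B : Set D} (h : Disjoint A B) (x : D) :
    chi (A ∪ B) x = chi A x + chi B x := by
  unfold chi
  by_cases h1 : x ∈ A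
  · have h2 : x ∉ B := fun h2 => Set.disjoint_left.1 h h1 h2
    rw [if_pos (Set.mem_union_left B h1), if_pos h1, if_neg h2, add_zero]
  · by_cases h2 : x ∈ B
    · rw [if_pos (Set.mem_union_right A h2), if_neg h1, if_pos h2, zero_add]
    · rw [if_neg (fun h3 => h3.elim h1 h2), if_neg h1, if_neg h2, add_zero]

theorem exists_mean (Λ : Subgroup G) [Λ.FiniteIndex] (φ : Λ →* Q) (hφ : Function.Surjective φ)
    (hQ : TH278.DX.Amenable Q) :
    ∃ m : Set (G ⧸ kerG Λ φ) → ℝ, (∀ A, 0 ≤ m A) ∧ m Set.univ = 1 ∧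
      (∀ A B, Disjoint A B → m (A ∪ B) = m A + m B) ∧
      ∀ (g : G) (A : Set (G ⧸ kerG Λ φ)), m ((fun x => g • x) ⁻¹' A) = m A := by
  obtain ⟨M, hadd, -, hpos, hone, hinv⟩ := hQ
  let _ : Fintype (G ⧸ Λ) := Λ.fintypeQuotientOfFiniteIndex
  set E : Set (G ⧸ kerG Λ φ) → G → ℝ := fun A x => M (fun q => chi A (x • jj Λ φ hφ q)) with hE
  have hEl : ∀ A x (l : Λ), E A (x * l) = E A x := by
    intro A x l
    have h1 := hinv (φ l)⁻¹ (fun q => chi A (x • jj Λ φ hφ q)) ⟨1, fun q => chi_bdd _ _⟩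
    rw [inv_inv] at h1
    simp only [hE]
    rw [← h1]
    congr 1
    funext q
    rw [mul_smul, smul_jj]
  have hEo : ∀ A x, E A ((QuotientGroup.mk x : G ⧸ Λ).out) = E A x := by
    intro A x
    obtain ⟨l, hl⟩ := QuotientGroup.mk_out_eq_mul Λ x
    rw [hl, hEl]
  have hcard : (0 : ℝ) < Fintype.card (G ⧸ Λ) := by
    haveI : Nonempty (G ⧸ Λ) := ⟨QuotientGroup.mk 1⟩
    exact_mod_cast Fintype.card_pos
  refine ⟨fun A => (∑ c : G ⧸ Λ, E A c.out) / Fintype.card (G ⧸ Λ), ?_, ?_, ?_, ?_⟩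
  · intro A
    exact div_nonneg (Finset.sum_nonneg fun c _ => hpos _ ⟨1, fun q => chi_bdd _ _⟩
      fun q => chi_nonneg _ _) hcard.le
  · have h1 : ∀ x, E Set.univ x = 1 := by
      intro x
      simp only [hE]
      rw [← hone]
      congr 1
      funext q
      exact if_pos (Set.mem_univ _)
    simp only [h1, Finset.sum_const, Finset.card_univ, nsmul_eq_mul, mul_one]
    exact div_self hcard.ne'
  · intro A B hAB
    show _ / _ = _ / _ + _ / _
    rw [← add_div, ← Finset.sum_add_distrib]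
    congr 1
    refine Finset.sum_congr rfl fun c _ => ?_
    simp only [hE]
    rw [← hadd _ _ ⟨1, fun q => chi_bdd _ _⟩ ⟨1, fun q => chi_bdd _ _⟩]
    congr 1
    funext q
    exact chi_union hAB _
  · intro g A
    show _ / _ = _ / _
    congr 1
    have h1 : ∀ x, E ((fun x => g • x) ⁻¹' A) x = E A (g * x) := by
      intro x
      simp only [hE]
      congr 1
      funext q
      rw [mul_smul]
      rfl
    calc ∑ c : G ⧸ Λ, E ((fun x => g • x) ⁻¹' A) c.out
        = ∑ c : G ⧸ Λ, E A ((MulAction.toPerm g c : G ⧸ Λ).out) := by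
          refine Finset.sum_congr rfl fun c _ => ?_
          rw [h1, ← hEo]
          congr 2
          show (QuotientGroup.mk (g * c.out) : G ⧸ Λ) = g • c
          conv_rhs => rw [← QuotientGroup.out_eq' c]
          rfl
      _ = ∑ c : G ⧸ Λ, E A c.out :=
          Equiv.sum_comp (MulAction.toPerm g : Equiv.Perm (G ⧸ Λ)) (fun c => E A c.out)

/-- Amenable quotients of subgroups of finite index of a group with property (T) are finite. -/
theorem finite_section (hT : PropT G) (Λ : Subgroup G) [Λ.FiniteIndex] (φ : Λ →* Q)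
    (hφ : Function.Surjective φ) (hQ : TH278.DX.Amenable Q) : Finite Q := by
  obtain ⟨m, h0, h1, hadd, hinv⟩ := exists_mean Λ φ hφ hQ
  haveI : Finite (G ⧸ kerG Λ φ) := finite_of_propT hT m h0 h1 hadd hinv
  exact Finite.of_injective _ (jj_injective Λ φ hφ)

end Pool.Agent.Y869.UP
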